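import Pool.Agent.H487.GA.Stm2
import Pool.Agent.H477.E.Loc1

set_option autoImplicit false

/-!
`S_PREC` from `S_PRECA` (project GA of helper487): the half circle integral to constant precision.
-/

open Finset Complex Filter Topology Metric Set MeasureTheory

namespace Pool.Agent.H484.GA

open Pool.Agent.H477.Jen
open Pool.Agent.H477.E
open Pool.Agent.H487.GA

/-- the local logarithm of `f` near a point where `f'/f` is close to `i lam` -/
theorem loc_log {f : ℂ → ℂ} (hf : Differentiable ℂ f) {lam r B : ℝ} (hr : 0 < r) {w : ℂ}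
    (hz : ∀ z : ℂ, ‖z - w‖ ≤ 2 / 5 * r → f z ≠ 0 ∧ ‖deriv f z / f z - I * (lam : ℂ)‖ ≤ B) :
    ∃ L : ℂ → ℂ, L 0 = 0 ∧ (∀ a b : ℂ, ‖a‖ < 2 / 5 * r → ‖b‖ < 2 / 5 * r → ‖L b - L a‖ ≤ B * ‖b - a‖) ∧
      ∀ a : ℂ, ‖a‖ < 2 / 5 * r → f (w + a) = f w * exp (I * lam * a + L a) := by
  set G : ℂ → ℂ := fun a => f (w + a) * exp (-(I * lam * a)) with hG
  have hder : ∀ a : ℂ, HasDerivAt G (deriv f (w + a) * exp (-(I * lam * a)) +
      f (w + a) * (exp (-(I * lam * a)) * -(I * lam))) a := by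
    intro a
    have h1 : HasDerivAt (fun a : ℂ => w + a) 1 a := (hasDerivAt_id a).const_add w
    have h2 : HasDerivAt (fun a : ℂ => f (w + a)) (deriv f (w + a) * 1) a :=
      HasDerivAt.comp (h₂ := f) a (hf (w + a)).hasDerivAt h1
    have h3 : HasDerivAt (fun a : ℂ => -(I * lam * a)) (-(I * lam)) a := by
      have := ((hasDerivAt_id a).const_mul (I * (lam : ℂ))).neg
      rw [mul_one] at this
      exact this
    have h4 := h3.cexp
    have h5 := h2.mul h4
    rw [mul_one] at h5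
    exact h5
  have hGd : Differentiable ℂ G := fun a => (hder a).differentiableAt
  have hin : ∀ a : ℂ, ‖a‖ ≤ 2 / 5 * r → ‖(w + a) - w‖ ≤ 2 / 5 * r := by
    intro a ha
    rwa [add_sub_cancel_left]
  have hne : ∀ a : ℂ, ‖a‖ ≤ 2 / 5 * r → G a ≠ 0 := fun a ha =>
    mul_ne_zero (hz _ (hin a ha)).1 (exp_ne_zero _)
  have hR : 0 < 2 / 5 * r := by positivity
  obtain ⟨L, hL0, hL1, hL2⟩ := exists_log hGd hR hne
  refine ⟨L, hL0, ?_, ?_⟩
  · intro a b ha hb
    refine (convex_ball (0:ℂ) (2 / 5 * r)).norm_image_sub_le_of_norm_hasDerivWithin_le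
      (f' := fun z => deriv G z / G z) (fun z h => (hL1 z h).hasDerivWithinAt) (fun z h => ?_)
      (mem_ball_zero_iff.2 ha) (mem_ball_zero_iff.2 hb)
    have hzr : ‖z‖ ≤ 2 / 5 * r := (mem_ball_zero_iff.1 h).le
    obtain ⟨h1, h2⟩ := hz _ (hin z hzr)
    have e : deriv G z / G z = deriv f (w + z) / f (w + z) - I * (lam : ℂ) := by
      rw [(hder z).deriv, hG]
      have := exp_ne_zero (-(I * lam * z))
      field_simp
      ring
    show ‖deriv G z / G z‖ ≤ B
    rw [e]
    exact h2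
  · intro a ha
    have h1 := hL2 a (mem_ball_zero_iff.2 ha)
    have h2 : f (w + a) = G a * exp (I * lam * a) := by
      rw [hG]
      simp only []
      rw [mul_assoc, ← exp_add, neg_add_cancel, exp_zero, mul_one]
    have h3 : G 0 = f w := by
      rw [hG]
      simp
    rw [h2, h1, h3, exp_add]
    ring

/-- the inner part of the half circle integral -/
theorem inner_bound {f : ℂ → ℂ} (hf : Differentiable ℂ f) {J lam t : ℝ} {k : ℕ} (hJ : 0 < J) (hk : 1 ≤ k) (hlam : 0 < lam)
    (hz : ∀ z : ℂ, ‖z - ((t : ℂ) - I * ((k / lam : ℝ) : ℂ))‖ ≤ 2 / 5 * (k / lam) →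
      f z ≠ 0 ∧ ‖deriv f z / f z - I * (lam : ℂ)‖ ≤ J * (lam / k))
    (hA : ∫ x in (-(1 / 8) : ℝ)..(1 / 8), |x| * Real.exp (k * (Real.cos x - 1)) ≤ 3 / k)
    {c : ℂ} (hc : ‖c - t‖ ≤ k / lam / 8) :
    ‖(∫ x in (-(1 / 8) : ℝ)..(1 / 8), f (c + -(I * ((k / lam : ℝ) : ℂ)) * exp (I * x)) * exp (-(I * k * x))) -
      AA k * f (c - I * ((k / lam : ℝ) : ℂ))‖ ≤ ‖f (c - I * ((k / lam : ℝ) : ℂ))‖ * (J * Real.exp (J / 8) * (3 / k)) ∧
    ‖f (t - I * ((k / lam : ℝ) : ℂ))‖ * Real.exp (-(lam * c.im)) ≤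
      ‖f (c - I * ((k / lam : ℝ) : ℂ))‖ * Real.exp (J / 8) := by
  have hk0 : (0:ℝ) < k := by exact_mod_cast hk
  set r : ℝ := k / lam with hrdef
  have hr0 : 0 < r := by positivity
  have hlr : lam * r = k := by rw [hrdef]; field_simp
  have hJr : J * (lam / k) = J / r := by rw [hrdef]; field_simp
  set w : ℂ := (t : ℂ) - I * (r : ℂ) with hw
  set u : ℂ := -(I * (r : ℂ)) with hu
  have hcu : c - I * (r : ℂ) = c + u := by rw [hu]; ring
  rw [hcu]
  obtain ⟨L, hL0, hL1, hL2⟩ := loc_log hf hr0 hz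
  rw [hJr] at hL1
  have hun : ‖u‖ = r := by
    rw [hu, norm_neg, norm_mul, norm_I, one_mul, norm_real, Real.norm_eq_abs, abs_of_pos hr0]
  have hlu : (I:ℂ) * lam * u = k := by
    rw [hu]
    have : (I:ℂ) * lam * -(I * r) = -(I * I) * ((lam * r : ℝ) : ℂ) := by push_cast; ring
    rw [this, I_mul_I, hlr]
    simp
  -- the value at `c + u`
  have hc0 : ‖c - t‖ < 2 / 5 * r := by linarith
  have ecu : c + u = w + (c - t) := by rw [hw, hu]; ring
  have hfc : f (c + u) = f w * exp (I * lam * (c - t) + L (c - t)) := by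
    rw [ecu]
    exact hL2 _ hc0
  constructor
  · -- the inner part
    have hpt : ∀ x : ℝ, |x| ≤ 1 / 8 → ∃ h : ℂ, ‖h‖ ≤ J * |x| ∧
        f (c + u * exp (I * x)) = f (c + u) * exp (k * (exp (I * x) - 1)) * exp h := by
      intro x hx
      have he : ‖exp (I * (x:ℂ)) - 1‖ ≤ |x| := by
        have := Real.norm_exp_I_mul_ofReal_sub_one_le (x := x)
        rwa [Real.norm_eq_abs] at this
      set ζ : ℂ := (c - t) + u * (exp (I * x) - 1) with hζ
      have h1 : ‖u * (exp (I * (x:ℂ)) - 1)‖ ≤ r * |x| := by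
        rw [norm_mul, hun]
        exact mul_le_mul_of_nonneg_left he hr0.le
      have h2 : ‖ζ‖ < 2 / 5 * r := by
        have h3 : r * |x| ≤ r * (1 / 8) := mul_le_mul_of_nonneg_left hx hr0.le
        have := norm_add_le (c - t) (u * (exp (I * (x:ℂ)) - 1))
        rw [← hζ] at this
        linarith
      refine ⟨L ζ - L (c - t), ?_, ?_⟩
      · have h3 := hL1 _ _ hc0 h2
        have h4 : ζ - (c - t) = u * (exp (I * (x:ℂ)) - 1) := by rw [hζ]; ring
        rw [h4] at h3
        refine h3.trans ?_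
        calc J / r * ‖u * (exp (I * (x:ℂ)) - 1)‖ ≤ J / r * (r * |x|) :=
              mul_le_mul_of_nonneg_left h1 (by positivity)
          _ = J * |x| := by field_simp
      · have e1 : c + u * exp (I * x) = w + ζ := by rw [hζ, hw, hu]; ring
        rw [e1, hL2 _ h2, hfc, mul_assoc (f w), mul_assoc (f w), ← exp_add, ← exp_add]
        congr 2
        rw [hζ, ← hlu]
        ring
    have hqc : Continuous fun x : ℝ => f (c + u * exp (I * x)) * exp (-(I * k * x)) := by
      have := hf.continuous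
      fun_prop
    have hac : Continuous fun x : ℝ => f (c + u) * cexp (k * (cexp (I * x) - 1 - I * x)) := by
      fun_prop
    have e1 : AA k * f (c + u) = ∫ x in (-(1 / 8) : ℝ)..(1 / 8), f (c + u) * cexp (k * (cexp (I * x) - 1 - I * x)) := by
      rw [intervalIntegral.integral_const_mul, mul_comm]
      rfl
    rw [e1, ← intervalIntegral.integral_sub (hqc.intervalIntegrable _ _) (hac.intervalIntegrable _ _)]
    set D := ‖f (c + u)‖ * (J * Real.exp (J / 8)) with hD
    have hD0 : 0 ≤ D := by positivity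
    have hgc : Continuous fun x : ℝ => D * (|x| * Real.exp (k * (Real.cos x - 1))) := by fun_prop
    have hle : (-(1 / 8) : ℝ) ≤ 1 / 8 := by norm_num
    refine (intervalIntegral.norm_integral_le_of_norm_le hle (g := fun x : ℝ => D * (|x| * Real.exp (k * (Real.cos x - 1))))
      (Filter.Eventually.of_forall fun x hx => ?_) (hgc.intervalIntegrable _ _)).trans ?_
    · have hx8 : |x| ≤ 1 / 8 := abs_le.2 ⟨hx.1.le, hx.2⟩
      obtain ⟨h, hh1, hh2⟩ := hpt x hx8
      have e2 : f (c + u * exp (I * x)) * exp (-(I * k * x)) - f (c + u) * cexp (k * (cexp (I * x) - 1 - I * x)) =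
          f (c + u) * cexp (k * (cexp (I * x) - 1 - I * x)) * (exp h - 1) := by
        have e3 : cexp (k * (cexp (I * x) - 1 - I * x)) = exp (k * (exp (I * x) - 1)) * exp (-(I * k * x)) := by
          rw [← exp_add]
          congr 1
          ring
        rw [hh2, e3]
        ring
      have e4 : ‖cexp (k * (cexp (I * x) - 1 - I * x))‖ = Real.exp (k * (Real.cos x - 1)) := by
        rw [norm_exp]
        congr 1
        have e5 : (cexp (I * (x:ℂ))).re = Real.cos x := by
          rw [mul_comm, exp_ofReal_mul_I_re]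
        have e6 : (cexp (I * (x:ℂ)) - 1 - I * x).re = Real.cos x - 1 := by
          rw [sub_re, sub_re, e5]
          simp
        have e7 : ((k:ℂ)) = ((k:ℝ) : ℂ) := by simp
        rw [e7, re_ofReal_mul, e6]
      have e8 : ‖exp h - 1‖ ≤ J * |x| * Real.exp (J / 8) := by
        have h1 := Complex.norm_exp_sub_sum_le_norm_mul_exp h 1
        simp only [Finset.range_one, Finset.sum_singleton, pow_zero, Nat.factorial_zero, Nat.cast_one, div_one, pow_one] at h1
        refine h1.trans ?_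
        have h2 : ‖h‖ ≤ J / 8 := by
          have := mul_le_mul_of_nonneg_left hx8 hJ.le
          linarith
        exact mul_le_mul hh1 (Real.exp_le_exp.2 h2) (Real.exp_pos _).le (by positivity)
      rw [e2, norm_mul, norm_mul, e4]
      calc ‖f (c + u)‖ * Real.exp (k * (Real.cos x - 1)) * ‖exp h - 1‖
          ≤ ‖f (c + u)‖ * Real.exp (k * (Real.cos x - 1)) * (J * |x| * Real.exp (J / 8)) :=
            mul_le_mul_of_nonneg_left e8 (by positivity)
        _ = D * (|x| * Real.exp (k * (Real.cos x - 1))) := by rw [hD]; ring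
    · rw [intervalIntegral.integral_const_mul]
      calc D * ∫ x in (-(1 / 8) : ℝ)..(1 / 8), |x| * Real.exp (k * (Real.cos x - 1)) ≤ D * (3 / k) :=
            mul_le_mul_of_nonneg_left hA hD0
        _ = _ := by rw [hD]; ring
  · -- the lower bound at `c + u`
    rw [hfc, norm_mul, norm_exp]
    have h1 : ‖L (c - t)‖ ≤ J / 8 := by
      have h2 := hL1 0 (c - t) (by rw [norm_zero]; positivity) hc0
      rw [hL0, sub_zero, sub_zero] at h2
      refine h2.trans ?_
      calc J / r * ‖c - t‖ ≤ J / r * (r / 8) := mul_le_mul_of_nonneg_left hc (by positivity)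
        _ = J / 8 := by field_simp
    have h2 := (abs_le.1 ((abs_re_le_norm (L (c - t))).trans h1)).1
    have h3 : (I * lam * (c - t) + L (c - t)).re = -(lam * c.im) + (L (c - t)).re := by
      rw [add_re]
      congr 1
      simp
    rw [h3, mul_assoc, ← Real.exp_add]
    apply mul_le_mul_of_nonneg_left _ (norm_nonneg _)
    apply Real.exp_le_exp.2
    linarith

theorem prec_proof : S_PRECA → S_PREC := by
  rintro ⟨k1, hk1, hA⟩ J ε hJ hε
  set M : ℝ := 2 * (Real.exp (J / 8) * (3 * J + 1600)) / ε with hM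
  have hM0 : 0 < M := by positivity
  obtain ⟨k2, hk2⟩ := exists_nat_ge (M ^ 2)
  refine ⟨1 / 10 ^ 4, by norm_num, by norm_num, max k1 k2, ?_⟩
  intro f hf k hk lam t hlam hr h hz
  have hkk1 : k1 ≤ k := (le_max_left _ _).trans hk
  have hkk2 : k2 ≤ k := (le_max_right _ _).trans hk
  have hk : 1 ≤ k := hk1.trans hkk1
  have hk0 : (0:ℝ) < k := by exact_mod_cast hk
  obtain ⟨hA1, hA2⟩ := hA k hkk1
  have hs0 : 0 < Real.sqrt k := Real.sqrt_pos.2 hk0
  have hMk : M ≤ Real.sqrt k := by
    apply Real.le_sqrt_of_sq_le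
    refine hk2.trans ?_
    exact_mod_cast hkk2
  have hAA : 0 < ‖AA k‖ := lt_of_lt_of_le (by positivity) hA1
  refine ⟨norm_pos_iff.1 hAA, ?_⟩
  intro c hc
  obtain ⟨hI1, hI2⟩ := inner_bound hf hJ hk hlam hz hA2 hc
  set r : ℝ := k / lam with hrdef
  set u : ℂ := -(I * (r : ℂ)) with hu
  set F0 := ‖f (t - I * (r : ℂ))‖ with hF0
  set Fc := ‖f (c - I * (r : ℂ))‖ with hFc
  have hFc0 : 0 ≤ Fc := norm_nonneg _
  have hpi := Real.pi_lt_d4
  have hpi0 := Real.pi_pos
  have hpi3 := Real.pi_gt_three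
  set q : ℝ → ℂ := fun x => f (c + u * exp (I * x)) * exp (-(I * k * x)) with hq
  have hqc : Continuous q := by
    have := hf.continuous
    rw [hq]
    fun_prop
  have hqn : ∀ x : ℝ, ‖q x‖ = ‖f (c + u * exp (I * x))‖ := by
    intro x
    rw [hq]
    simp only []
    rw [norm_mul, norm_exp]
    have : (-(I * (k:ℂ) * (x:ℂ))).re = 0 := by simp
    rw [this, Real.exp_zero, mul_one]
  have hhalf : half f u k c = ∫ x in (-(Real.pi / 2))..(Real.pi / 2), q x := rfl
  have hsplit : half f u k c = (∫ x in (-(Real.pi / 2))..(-(1 / 8)), q x) + (∫ x in (-(1 / 8) : ℝ)..(1 / 8), q x) +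
      ∫ x in (1 / 8 : ℝ)..(Real.pi / 2), q x := by
    rw [hhalf, intervalIntegral.integral_add_adjacent_intervals (hqc.intervalIntegrable _ _)
      (hqc.intervalIntegrable _ _), intervalIntegral.integral_add_adjacent_intervals
      (hqc.intervalIntegrable _ _) (hqc.intervalIntegrable _ _)]
  set δ := Fc * Real.exp (J / 8) * Real.exp (-(k / 400)) with hδ
  have hδ0 : 0 ≤ δ := by positivity
  have hout : ∀ x : ℝ, 1 / 8 ≤ |x| → |x| ≤ Real.pi / 2 → ‖q x‖ ≤ δ := by
    intro x h1 h2
    rw [hqn]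
    refine ((h.circ hk hlam hr (by norm_num) hc h2).2 h1).trans ?_
    calc F0 * Real.exp (-(lam * c.im) - k / 320 + 13 / 4 * (1 / 10 ^ 4) * k)
        ≤ F0 * Real.exp (-(lam * c.im) + -(k / 400)) := by
          apply mul_le_mul_of_nonneg_left _ (norm_nonneg _)
          apply Real.exp_le_exp.2
          linarith
      _ = F0 * Real.exp (-(lam * c.im)) * Real.exp (-(k / 400)) := by rw [Real.exp_add]; ring
      _ ≤ Fc * Real.exp (J / 8) * Real.exp (-(k / 400)) :=
          mul_le_mul_of_nonneg_right hI2 (Real.exp_pos _).le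
  have ho1 : ‖∫ x in (-(Real.pi / 2))..(-(1 / 8)), q x‖ ≤ δ * 2 := by
    refine (intervalIntegral.norm_integral_le_of_norm_le_const (C := δ) (fun x hx => ?_)).trans ?_
    · rw [uIoc_of_le (by linarith)] at hx
      apply hout
      · rw [abs_of_nonpos (by linarith [hx.2])]; linarith [hx.2]
      · rw [abs_of_nonpos (by linarith [hx.2])]; linarith [hx.1]
    · apply mul_le_mul_of_nonneg_left _ hδ0
      rw [abs_of_nonneg (by linarith)]
      linarith
  have ho2 : ‖∫ x in (1 / 8 : ℝ)..(Real.pi / 2), q x‖ ≤ δ * 2 := by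
    refine (intervalIntegral.norm_integral_le_of_norm_le_const (C := δ) (fun x hx => ?_)).trans ?_
    · rw [uIoc_of_le (by linarith)] at hx
      apply hout
      · rw [abs_of_nonneg (by linarith [hx.1])]; linarith [hx.1]
      · rw [abs_of_nonneg (by linarith [hx.1])]; linarith [hx.2]
    · apply mul_le_mul_of_nonneg_left _ hδ0
      rw [abs_of_nonneg (by linarith)]
      linarith
  have htot : ‖half f u k c - AA k * f (c - I * (r : ℂ))‖ ≤ δ * 2 + Fc * (J * Real.exp (J / 8) * (3 / k)) + δ * 2 := by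
    have e1 : half f u k c - AA k * f (c - I * (r : ℂ)) = (∫ x in (-(Real.pi / 2))..(-(1 / 8)), q x) +
        ((∫ x in (-(1 / 8) : ℝ)..(1 / 8), q x) - AA k * f (c - I * (r : ℂ))) + ∫ x in (1 / 8 : ℝ)..(Real.pi / 2), q x := by
      rw [hsplit]; ring
    rw [e1]
    exact (norm_add_le _ _).trans (add_le_add ((norm_add_le _ _).trans (add_le_add ho1 hI1)) ho2)
  refine htot.trans ?_
  -- the numbers
  have hexp : Real.exp (-(k / 400 : ℝ)) ≤ 400 / k := by
    rw [Real.exp_neg, inv_eq_one_div, div_le_div_iff₀ (Real.exp_pos _) hk0]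
    have := Real.add_one_le_exp (k / 400 : ℝ)
    linarith
  have hE := Real.exp_pos (J / 8)
  set E := Real.exp (J / 8) with hEdef
  have h1 : δ * 2 + Fc * (J * E * (3 / k)) + δ * 2 ≤ Fc * (E * (3 * J + 1600) / k) := by
    have h2 : δ ≤ Fc * E * (400 / k) := by
      rw [hδ]
      exact mul_le_mul_of_nonneg_left hexp (by positivity)
    have h3 : Fc * (E * (3 * J + 1600) / k) = (Fc * E * (400 / k)) * 2 + Fc * (J * E * (3 / k)) + (Fc * E * (400 / k)) * 2 := by
      field_simp
      ring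
    rw [h3]
    linarith
  refine h1.trans ?_
  have h4 : E * (3 * J + 1600) / k ≤ ε * (1 / (2 * Real.sqrt k)) := by
    have h5 : E * (3 * J + 1600) = M * ε / 2 := by
      rw [hM]
      field_simp
    have h6 : (k:ℝ) = Real.sqrt k * Real.sqrt k := (Real.mul_self_sqrt hk0.le).symm
    rw [h5]
    have h7 : ε * (1 / (2 * Real.sqrt k)) = Real.sqrt k * ε / 2 / k := by
      nth_rewrite 3 [h6]
      field_simp
    rw [h7]
    gcongr
  calc Fc * (E * (3 * J + 1600) / k) ≤ Fc * (ε * (1 / (2 * Real.sqrt k))) := mul_le_mul_of_nonneg_left h4 hFc0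
    _ ≤ Fc * (ε * ‖AA k‖) := by gcongr
    _ = ε * (‖AA k‖ * Fc) := by ring

end Pool.Agent.H484.GA
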